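import Mathlib
import Pool.Agent.X30.WT3

/-!
# The mean square of the number of representations by `k` randomly shifted `k`-th powers
-/

set_option autoImplicit false

namespace Pool.Agent.Results.MP_df17e9_nt.HypothesisKStarRandomShifts

open MeasureTheory ProbabilityTheory

/-- the number of values of the random shift with index `m`: it is at most `m ^ η`, for `m ≥ 1`, `η ≥ 0` -/
noncomputable def size (η : ℝ) (m : ℕ) : ℕ := 2 ^ ⌊η * Nat.log 2 m⌋₊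

/-- the number of ordered `k`-tuples of positive integers `x_i` with `∑ (x_i ^ k + w x_i) = n` -/
noncomputable def r (k : ℕ) (w : ℕ → ℕ) (n : ℕ) : ℕ :=
  {x : Fin k → ℕ | (∀ i, 1 ≤ x i) ∧ ∑ i, (x i ^ k + w (x i)) = n}.ncard

theorem result (k q : ℕ) (hq1 : 1 ≤ q) (hq : q + 2 ≤ k) (hs : 2 ^ q < 2 * k) (η : ℝ)
    (hη : ((k : ℝ) - η) * (2 * k + q * 2 ^ q) < 2 * k * (q + 1)) (hη1 : η ≤ k - 1)
    {Ω : Type*} [MeasurableSpace Ω] (μ : Measure Ω) [IsProbabilityMeasure μ]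
    (δ : ℕ → Ω → ℕ) (hm : ∀ m, Measurable (δ m)) (hind : iIndepFun δ μ)
    (hu : ∀ m, ∀ d < size η m, μ {ω | δ m ω = d} = 1 / (size η m : ENNReal)) :
    ∀ᵐ ω ∂μ, ∀ ε : ℝ, 0 < ε → ∃ x₀ : ℕ, ∀ x : ℕ, x₀ ≤ x →
      ∑ n ∈ Finset.Icc 1 x, (r k (fun m => δ m ω) n : ℝ) ^ 2 < (x : ℝ) ^ (1 + ε) :=
  Pool.Agent.X30.WP.hypK k q hq1 hq (by exact_mod_cast hs) η hη1 (by push_cast; exact hη) δ hm hind hu

end Pool.Agent.Results.MP_df17e9_nt.HypothesisKStarRandomShifts
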